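import Pool.Agent.Helper2.EC_C.Goals
import Pool.Agent.Helper2.EC_C.Basic

/-!
# Packet C18
-/

set_option autoImplicit false

open MeasureTheory Filter Topology Set

namespace ECC.PkC18

theorem ne_pos (mon : G_MON) {q : ℝ} (h0 : 0 < q) (h1 : q < 1) : aS q ≠ aS (q ^ 4) := by
  have h4 : q ^ 4 < q := by
    have h5 : q ^ 3 < 1 := pow_lt_one₀ h0.le h1 (by norm_num)
    calc q ^ 4 = q * q ^ 3 := by ring
      _ < q * 1 := mul_lt_mul_of_pos_left h5 h0
      _ = q := mul_one q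
  have h5 : (0 : ℝ) ≤ q ^ 4 := by positivity
  exact (mon.1 ⟨h5, h4.trans h1⟩ ⟨h0.le, h1⟩ h4).ne'

theorem c18 (par : G_PAR) (mon : G_MON) (b2 : G_B2) : G_C18 := by
  intro q hq
  have e2 : (-q) ^ 2 = q ^ 2 := by ring
  have e4 : (-q) ^ 4 = q ^ 4 := by ring
  have hq' : |-q| < 1 := by rwa [abs_neg]
  rcases eq_or_ne q 0 with rfl | hq0
  · norm_num
  have hp := (par q hq).1
  have hb := b2 q hq
  have hb' := b2 (-q) hq'
  unfold AA BB at hb hb'
  rw [e2] at hb'
  have hne : aS q ≠ aS (q ^ 4) := by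
    rcases lt_or_gt_of_ne hq0 with h | h
    · intro he
      have h1 := ne_pos mon (q := -q) (by linarith) (by rw [abs_of_neg h] at hq; exact hq)
      rw [e4] at h1
      apply h1
      rw [hp]
      linarith
    · exact ne_pos mon h (by rw [abs_of_pos h] at hq; exact hq)
  rw [hp] at hb'
  have h1 : (aS q - aS (q ^ 4)) * ((aS q - aS (q ^ 4)) ^ 2 -
      3 * (aS (q ^ 2) ^ 2 - aS (q ^ 4) ^ 2)) = 0 := by
    linear_combination 2 * hb - 2 * hb'
  rcases mul_eq_zero.1 h1 with h2 | h2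
  · exact absurd (sub_eq_zero.1 h2) hne
  · linarith

end ECC.PkC18
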