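import Pool.Agent.Helper2.EC_C.Goals

/-!
# Packet RHO: the differential equation of `rho`
-/

set_option autoImplicit false

open MeasureTheory Filter Topology Set

namespace ECC.PkRHO

/-- `∂D/∂w` -/
def Dw (t w : ℝ) : ℝ := 2 * (1 - t ^ 2) * (5 - t ^ 2) + 2 * w * (1 - t ^ 2) ^ 2

/-- `∂D/∂t` -/
def Dt (t w : ℝ) : ℝ :=
  4 * t * (3 + t ^ 2) + 2 * w * (-2 * t * (5 - t ^ 2) - 2 * t * (1 - t ^ 2)) -
    4 * t * w ^ 2 * (1 - t ^ 2)

/-- `Z0` -/
def Z0 (t w : ℝ) : ℝ :=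
  4 * t * (1 - t ^ 2) * (4 * (3 + w) - (3 - w) * (w + 1) * (1 - t ^ 2))

/-- `∂Z0/∂t` -/
def Zt (t w : ℝ) : ℝ :=
  4 * (1 - 3 * t ^ 2) * (4 * (3 + w) - (3 - w) * (w + 1) * (1 - t ^ 2)) +
    8 * t ^ 2 * (1 - t ^ 2) * ((3 - w) * (w + 1))

theorem poly (t w : ℝ) :
    w * (w + 1) * (w + 9) * (3 / 2 * Dw t w ^ 2 - 2 * (1 - t ^ 2) ^ 2 * Dtw t w) -
      (3 * w ^ 2 + 20 * w + 9) * (Dw t w * Dtw t w) + (w + 3) * (2 * Dtw t w ^ 2) =
    -(Zt t w * Dtw t w - 3 / 2 * Z0 t w * Dt t w) := by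
  unfold Dw Dtw Zt Z0 Dt
  ring

theorem D_pos {w : ℝ} (hw : 0 ≤ w) (t : ℝ) : 0 < Dtw t w := by
  unfold Dtw
  rcases le_total (t ^ 2) 1 with h | h
  · have h1 : 0 ≤ 2 * w * (1 - t ^ 2) * (5 - t ^ 2) :=
      mul_nonneg (mul_nonneg (by linarith) (by linarith)) (by linarith)
    have h2 : 0 ≤ w ^ 2 * (1 - t ^ 2) ^ 2 := by positivity
    have h3 : 0 < (3 + t ^ 2) ^ 2 := by positivity
    linarith
  · have h1 : (3 + t ^ 2) ^ 2 + 2 * w * (1 - t ^ 2) * (5 - t ^ 2) + w ^ 2 * (1 - t ^ 2) ^ 2 =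
        ((1 - t ^ 2) * w + (5 - t ^ 2)) ^ 2 + 16 * (t ^ 2 - 1) := by ring
    rw [h1]
    rcases h.lt_or_eq with h2 | h2
    · have := sq_nonneg ((1 - t ^ 2) * w + (5 - t ^ 2))
      linarith
    · rw [← h2]
      norm_num

theorem D_ge {w : ℝ} (hw : 0 ≤ w) {t : ℝ} (ht : t ^ 2 ≤ 1) : 9 ≤ Dtw t w := by
  unfold Dtw
  have h1 : 0 ≤ 2 * w * (1 - t ^ 2) * (5 - t ^ 2) :=
    mul_nonneg (mul_nonneg (by linarith) (by linarith)) (by linarith)
  have h2 : 0 ≤ w ^ 2 * (1 - t ^ 2) ^ 2 := by positivity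
  nlinarith [sq_nonneg t]

theorem sqrt_ge {w : ℝ} (hw : 0 ≤ w) {t : ℝ} (ht : t ^ 2 ≤ 1) : 3 ≤ Real.sqrt (Dtw t w) := by
  refine Real.le_sqrt_of_sq_le ?_
  linarith [D_ge hw ht]

theorem Dw_nonneg {w : ℝ} (hw : 0 ≤ w) {t : ℝ} (ht : t ^ 2 ≤ 1) : 0 ≤ Dw t w := by
  unfold Dw
  have h1 : 0 ≤ 2 * (1 - t ^ 2) * (5 - t ^ 2) :=
    mul_nonneg (by linarith) (by linarith)
  have h2 : 0 ≤ 2 * w * (1 - t ^ 2) ^ 2 := by positivity
  linarith

theorem Dw_le {w : ℝ} (hw : 0 ≤ w) {t : ℝ} (ht : t ^ 2 ≤ 1) : Dw t w ≤ 10 + 2 * w := by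
  unfold Dw
  have h0 := sq_nonneg t
  have h1 : (1 - t ^ 2) * (5 - t ^ 2) ≤ 1 * 5 :=
    mul_le_mul (by linarith) (by linarith) (by linarith) (by norm_num)
  have h2 : (1 - t ^ 2) ^ 2 ≤ 1 := by nlinarith
  have h3 : w * (1 - t ^ 2) ^ 2 ≤ w * 1 := mul_le_mul_of_nonneg_left h2 hw
  nlinarith

theorem cont_D (w : ℝ) : Continuous fun t => Dtw t w := by
  unfold Dtw
  fun_prop

theorem cont_D' (t : ℝ) : Continuous fun w => Dtw t w := by
  unfold Dtw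
  fun_prop

theorem cont_Dw (w : ℝ) : Continuous fun t => Dw t w := by
  unfold Dw
  fun_prop

theorem hasDerivAt_D_w (t w : ℝ) : HasDerivAt (fun w => Dtw t w) (Dw t w) w := by
  unfold Dtw Dw
  have h := (((hasDerivAt_id w).const_mul (2 : ℝ)).mul_const (1 - t ^ 2)).mul_const (5 - t ^ 2)
  have h2 := ((hasDerivAt_id w).pow 2).mul_const ((1 - t ^ 2) ^ 2)
  have h3 := (h.const_add ((3 + t ^ 2) ^ 2)).add h2
  refine h3.congr_deriv ?_
  simp

theorem hasDerivAt_Dw_w (t w : ℝ) : HasDerivAt (fun w => Dw t w) (2 * (1 - t ^ 2) ^ 2) w := by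
  unfold Dw
  have h := ((hasDerivAt_id w).const_mul (2 : ℝ)).mul_const ((1 - t ^ 2) ^ 2)
  have h3 := h.const_add (2 * (1 - t ^ 2) * (5 - t ^ 2))
  refine h3.congr_deriv ?_
  simp

theorem hasDerivAt_D_t (t w : ℝ) : HasDerivAt (fun t => Dtw t w) (Dt t w) t := by
  have h0 : HasDerivAt (fun t : ℝ => t ^ 2) (2 * t) t := by
    simpa using hasDerivAt_pow 2 t
  have h1 := (h0.const_add 3).pow 2
  have h2 := ((h0.const_sub 1).const_mul (2 * w)).mul (h0.const_sub 5)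
  have h3 := ((h0.const_sub 1).pow 2).const_mul (w ^ 2)
  have h4 := (h1.add h2).add h3
  have h5 : (fun t => Dtw t w) = fun t => (3 + t ^ 2) ^ 2 + 2 * w * (1 - t ^ 2) * (5 - t ^ 2) +
      w ^ 2 * (1 - t ^ 2) ^ 2 := by
    funext t
    rfl
  rw [h5]
  refine h4.congr_deriv ?_
  unfold Dt
  simp
  ring

theorem hasDerivAt_Z0_t (t w : ℝ) : HasDerivAt (fun t => Z0 t w) (Zt t w) t := by
  have h0 : HasDerivAt (fun t : ℝ => t ^ 2) (2 * t) t := by
    simpa using hasDerivAt_pow 2 t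
  have h1 := (((hasDerivAt_id t).const_mul 4).mul (h0.const_sub 1)).mul
    (((h0.const_sub 1).const_mul ((3 - w) * (w + 1))).const_sub (4 * (3 + w)))
  have h5 : (fun t => Z0 t w) = fun t => 4 * t * (1 - t ^ 2) *
      (4 * (3 + w) - (3 - w) * (w + 1) * (1 - t ^ 2)) := by
    funext t
    rfl
  rw [h5]
  refine h1.congr_deriv ?_
  unfold Zt
  simp
  ring

theorem hasDerivAt_F {w : ℝ} (hw : 0 ≤ w) (t : ℝ) :
    HasDerivAt (fun w => 2 / Real.sqrt (Dtw t w))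
      (-(Dw t w / (Dtw t w * Real.sqrt (Dtw t w)))) w := by
  have hD := D_pos hw t
  have hs : 0 < Real.sqrt (Dtw t w) := Real.sqrt_pos.2 hD
  have hss : Real.sqrt (Dtw t w) ^ 2 = Dtw t w := Real.sq_sqrt hD.le
  have h1 := ((hasDerivAt_D_w t w).sqrt hD.ne')
  have h2 := (hasDerivAt_const w (2 : ℝ)).div h1 hs.ne'
  refine h2.congr_deriv ?_
  rw [hss]
  field_simp
  ring

theorem hasDerivAt_F1 {w : ℝ} (hw : 0 ≤ w) (t : ℝ) :
    HasDerivAt (fun w => -(Dw t w / (Dtw t w * Real.sqrt (Dtw t w))))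
      ((3 / 2 * Dw t w ^ 2 - 2 * (1 - t ^ 2) ^ 2 * Dtw t w) /
        (Dtw t w ^ 2 * Real.sqrt (Dtw t w))) w := by
  have hD := D_pos hw t
  have hs : 0 < Real.sqrt (Dtw t w) := Real.sqrt_pos.2 hD
  have hss : Real.sqrt (Dtw t w) ^ 2 = Dtw t w := Real.sq_sqrt hD.le
  have h1 := ((hasDerivAt_D_w t w).sqrt hD.ne')
  have h2 := ((hasDerivAt_Dw_w t w).div ((hasDerivAt_D_w t w).mul h1)
    (mul_pos hD hs).ne').neg
  refine h2.congr_deriv ?_
  simp only [Pi.mul_apply]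
  generalize Real.sqrt (Dtw t w) = s at hs hss ⊢
  generalize Dtw t w = D at hD hss ⊢
  subst hss
  field_simp
  ring

theorem hasDerivAt_Z {w : ℝ} (hw : 0 ≤ w) (t : ℝ) :
    HasDerivAt (fun t => Z0 t w / (Dtw t w * Real.sqrt (Dtw t w)))
      ((Zt t w * Dtw t w - 3 / 2 * Z0 t w * Dt t w) /
        (Dtw t w ^ 2 * Real.sqrt (Dtw t w))) t := by
  have hD := D_pos hw t
  have hs : 0 < Real.sqrt (Dtw t w) := Real.sqrt_pos.2 hD
  have hss : Real.sqrt (Dtw t w) ^ 2 = Dtw t w := Real.sq_sqrt hD.le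
  have h1 := ((hasDerivAt_D_t t w).sqrt hD.ne')
  have h2 := (hasDerivAt_Z0_t t w).div ((hasDerivAt_D_t t w).mul h1) (mul_pos hD hs).ne'
  refine h2.congr_deriv ?_
  simp only [Pi.mul_apply]
  generalize Real.sqrt (Dtw t w) = s at hs hss ⊢
  generalize Dtw t w = D at hD hss ⊢
  subst hss
  field_simp
  ring

theorem cont_F {w : ℝ} (hw : 0 ≤ w) : Continuous fun t => 2 / Real.sqrt (Dtw t w) :=
  continuous_const.div (cont_D w).sqrt fun t => (Real.sqrt_pos.2 (D_pos hw t)).ne'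

theorem cont_F1 {w : ℝ} (hw : 0 ≤ w) :
    Continuous fun t => -(Dw t w / (Dtw t w * Real.sqrt (Dtw t w))) :=
  ((cont_Dw w).div ((cont_D w).mul (cont_D w).sqrt) fun t =>
    (mul_pos (D_pos hw t) (Real.sqrt_pos.2 (D_pos hw t))).ne').neg

theorem cont_F2 {w : ℝ} (hw : 0 ≤ w) :
    Continuous fun t => (3 / 2 * Dw t w ^ 2 - 2 * (1 - t ^ 2) ^ 2 * Dtw t w) /
        (Dtw t w ^ 2 * Real.sqrt (Dtw t w)) := by
  refine Continuous.div ?_ (((cont_D w).pow 2).mul (cont_D w).sqrt) fun t =>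
    (mul_pos (pow_pos (D_pos hw t) 2) (Real.sqrt_pos.2 (D_pos hw t))).ne'
  have h1 := cont_D w
  have h2 := cont_Dw w
  fun_prop

theorem sq_le_one {t : ℝ} (ht : t ∈ uIoc (0 : ℝ) 1) : t ^ 2 ≤ 1 := by
  rw [uIoc_of_le zero_le_one] at ht
  nlinarith [ht.1, ht.2]

theorem bound_F1 {w : ℝ} (hw : 0 ≤ w) {t : ℝ} (ht : t ^ 2 ≤ 1) :
    |-(Dw t w / (Dtw t w * Real.sqrt (Dtw t w)))| ≤ (10 + 2 * w) / 27 := by
  have hD := D_ge hw ht
  have hs := sqrt_ge hw ht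
  have h1 := Dw_nonneg hw ht
  have h2 := Dw_le hw ht
  have h3 : 27 ≤ Dtw t w * Real.sqrt (Dtw t w) := by nlinarith
  rw [abs_neg, abs_of_nonneg (div_nonneg h1 (by linarith))]
  exact div_le_div₀ (by linarith) h2 (by norm_num) h3

theorem bound_F2 {w : ℝ} (hw : 0 ≤ w) {t : ℝ} (ht : t ^ 2 ≤ 1) :
    |(3 / 2 * Dw t w ^ 2 - 2 * (1 - t ^ 2) ^ 2 * Dtw t w) /
        (Dtw t w ^ 2 * Real.sqrt (Dtw t w))| ≤ 3 / 2 * (10 + 2 * w) ^ 2 + 2 := by
  have hD := D_ge hw ht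
  have hs := sqrt_ge hw ht
  have h1 := Dw_nonneg hw ht
  have h2 := Dw_le hw ht
  have h3 : 1 ≤ Dtw t w * Real.sqrt (Dtw t w) := by nlinarith
  have h4 : 0 < Dtw t w ^ 2 * Real.sqrt (Dtw t w) := by positivity
  have h0 := sq_nonneg t
  have h5 : (1 - t ^ 2) ^ 2 ≤ 1 := by nlinarith
  have h6 : 0 ≤ (1 - t ^ 2) ^ 2 := sq_nonneg _
  have h7 : Dw t w ^ 2 ≤ (10 + 2 * w) ^ 2 := by nlinarith
  have h8 : Dtw t w ≤ Dtw t w ^ 2 * Real.sqrt (Dtw t w) := by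
    have : Dtw t w ^ 2 * Real.sqrt (Dtw t w) =
        Dtw t w * (Dtw t w * Real.sqrt (Dtw t w)) := by ring
    rw [this]
    nlinarith
  rw [abs_div, abs_of_pos h4, div_le_iff₀ h4]
  have h9 : |3 / 2 * Dw t w ^ 2 - 2 * (1 - t ^ 2) ^ 2 * Dtw t w| ≤
      3 / 2 * (10 + 2 * w) ^ 2 + 2 * Dtw t w := by
    rw [abs_le]
    constructor
    · nlinarith [sq_nonneg (Dw t w), sq_nonneg (10 + 2 * w)]
    · have : 0 ≤ 2 * (1 - t ^ 2) ^ 2 * Dtw t w := by positivity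
      nlinarith
  have h10 : 1 ≤ Dtw t w ^ 2 * Real.sqrt (Dtw t w) := by linarith
  nlinarith [sq_nonneg (10 + 2 * w)]

/-- Differentiation under the integral sign. -/
theorem deriv_int {F F' : ℝ → ℝ → ℝ} (hF : ∀ w, 0 ≤ w → Continuous (F w))
    (hF' : ∀ w, 0 ≤ w → Continuous (F' w))
    (hd : ∀ w, 0 ≤ w → ∀ t, HasDerivAt (fun w => F w t) (F' w t) w)
    (K : ℝ → ℝ) (hK : ∀ w w', 0 ≤ w → w ≤ w' → K w ≤ K w')
    (hb : ∀ w, 0 ≤ w → ∀ t : ℝ, t ^ 2 ≤ 1 → |F' w t| ≤ K w) {w : ℝ} (hw : 0 < w) :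
    HasDerivAt (fun w => ∫ t in (0:ℝ)..1, F w t) (∫ t in (0:ℝ)..1, F' w t) w := by
  have hs : Ioo 0 (w + 1) ∈ 𝓝 w := Ioo_mem_nhds hw (by linarith)
  refine (intervalIntegral.hasDerivAt_integral_of_dominated_loc_of_deriv_le
    (bound := fun _ => K (w + 1)) hs ?_ ?_ ?_ ?_ ?_ ?_).2
  · filter_upwards [hs] with x hx
    exact (hF x hx.1.le).aestronglyMeasurable
  · exact (hF w hw.le).intervalIntegrable _ _
  · exact (hF' w hw.le).aestronglyMeasurable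
  · refine Eventually.of_forall fun t ht x hx => ?_
    rw [Real.norm_eq_abs]
    exact (hb x hx.1.le t (sq_le_one ht)).trans (hK _ _ hx.1.le hx.2.le)
  · exact _root_.intervalIntegrable_const
  · exact Eventually.of_forall fun t _ x hx => hd x hx.1.le t

theorem hasDerivAt_rho {w : ℝ} (hw : 0 < w) : HasDerivAt rho (rho1 w) w :=
  deriv_int (F := fun w t => 2 / Real.sqrt (Dtw t w))
    (F' := fun w t => -(Dw t w / (Dtw t w * Real.sqrt (Dtw t w)))) (fun _ h => cont_F h)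
    (fun _ h => cont_F1 h) (fun _ h t => hasDerivAt_F h t) (fun w => (10 + 2 * w) / 27)
    (fun w w' _ h => by linarith) (fun _ h _ ht => bound_F1 h ht) hw

theorem hasDerivAt_rho1 {w : ℝ} (hw : 0 < w) : HasDerivAt rho1
    (∫ t in (0:ℝ)..1, (3 / 2 * Dw t w ^ 2 - 2 * (1 - t ^ 2) ^ 2 * Dtw t w) /
        (Dtw t w ^ 2 * Real.sqrt (Dtw t w))) w :=
  deriv_int (F := fun w t => -(Dw t w / (Dtw t w * Real.sqrt (Dtw t w))))
    (F' := fun w t => (3 / 2 * Dw t w ^ 2 - 2 * (1 - t ^ 2) ^ 2 * Dtw t w) /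
        (Dtw t w ^ 2 * Real.sqrt (Dtw t w))) (fun _ h => cont_F1 h)
    (fun _ h => cont_F2 h) (fun _ h t => hasDerivAt_F1 h t)
    (fun w => 3 / 2 * (10 + 2 * w) ^ 2 + 2)
    (fun w w' h0 h => by nlinarith) (fun _ h _ ht => bound_F2 h ht) hw

theorem ode_int {w : ℝ} (hw : 0 ≤ w) :
    (3 * w ^ 2 + 20 * w + 9) * rho1 w + w * (w + 1) * (w + 9) *
      (∫ t in (0:ℝ)..1, (3 / 2 * Dw t w ^ 2 - 2 * (1 - t ^ 2) ^ 2 * Dtw t w) /
        (Dtw t w ^ 2 * Real.sqrt (Dtw t w))) = -((w + 3) * rho w) := by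
  have h1 : ∫ t in (0:ℝ)..1, ((3 * w ^ 2 + 20 * w + 9) *
      (-(Dw t w / (Dtw t w * Real.sqrt (Dtw t w)))) + w * (w + 1) * (w + 9) *
      ((3 / 2 * Dw t w ^ 2 - 2 * (1 - t ^ 2) ^ 2 * Dtw t w) /
        (Dtw t w ^ 2 * Real.sqrt (Dtw t w))) + (w + 3) * (2 / Real.sqrt (Dtw t w))) = 0 := by
    have h2 : ∀ t : ℝ, (3 * w ^ 2 + 20 * w + 9) *
        (-(Dw t w / (Dtw t w * Real.sqrt (Dtw t w)))) + w * (w + 1) * (w + 9) *
        ((3 / 2 * Dw t w ^ 2 - 2 * (1 - t ^ 2) ^ 2 * Dtw t w) /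
          (Dtw t w ^ 2 * Real.sqrt (Dtw t w))) + (w + 3) * (2 / Real.sqrt (Dtw t w)) =
        -((Zt t w * Dtw t w - 3 / 2 * Z0 t w * Dt t w) /
          (Dtw t w ^ 2 * Real.sqrt (Dtw t w))) := by
      intro t
      have hD := D_pos hw t
      have hs : 0 < Real.sqrt (Dtw t w) := Real.sqrt_pos.2 hD
      have hp := poly t w
      have h7 : -((Zt t w * Dtw t w - 3 / 2 * Z0 t w * Dt t w) /
          (Dtw t w ^ 2 * Real.sqrt (Dtw t w))) = -(Zt t w * Dtw t w - 3 / 2 * Z0 t w * Dt t w) /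
          (Dtw t w ^ 2 * Real.sqrt (Dtw t w)) := by ring
      rw [h7, ← hp]
      generalize Real.sqrt (Dtw t w) = s at hs ⊢
      generalize Dtw t w = D at hD ⊢
      field_simp
      ring
    simp_rw [h2]
    rw [intervalIntegral.integral_neg,
      intervalIntegral.integral_eq_sub_of_hasDerivAt (fun t _ => hasDerivAt_Z hw t)]
    · unfold Z0
      norm_num
    · refine Continuous.intervalIntegrable ?_ _ _
      refine Continuous.div ?_ (((cont_D w).pow 2).mul (cont_D w).sqrt) fun t =>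
        (mul_pos (pow_pos (D_pos hw t) 2) (Real.sqrt_pos.2 (D_pos hw t))).ne'
      have h1 := cont_D w
      unfold Zt Z0 Dt
      fun_prop
  rw [intervalIntegral.integral_add, intervalIntegral.integral_add,
    intervalIntegral.integral_const_mul, intervalIntegral.integral_const_mul,
    intervalIntegral.integral_const_mul] at h1
  · have h3 : rho w = ∫ t in (0:ℝ)..1, 2 / Real.sqrt (Dtw t w) := rfl
    have h4 : rho1 w = ∫ t in (0:ℝ)..1, -(Dw t w / (Dtw t w * Real.sqrt (Dtw t w))) := rfl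
    rw [h3, h4]
    linarith
  · exact ((cont_F1 hw).const_mul _).intervalIntegrable _ _
  · exact ((cont_F2 hw).const_mul _).intervalIntegrable _ _
  · exact (((cont_F1 hw).const_mul _).add ((cont_F2 hw).const_mul _)).intervalIntegrable _ _
  · exact ((cont_F hw).const_mul _).intervalIntegrable _ _

theorem ode {w : ℝ} (hw : 0 < w) :
    HasDerivAt (fun w : ℝ => w * (w + 1) * (w + 9) * rho1 w) (-((w + 3) * rho w)) w := by
  have h0 := hasDerivAt_id w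
  have h1 : HasDerivAt (fun w : ℝ => w * (w + 1) * (w + 9)) (3 * w ^ 2 + 20 * w + 9) w := by
    refine ((h0.mul (h0.add_const 1)).mul (h0.add_const 9)).congr_deriv ?_
    simp
    ring
  exact (h1.mul (hasDerivAt_rho1 hw)).congr_deriv (ode_int hw.le)

theorem rho1_le {w : ℝ} (hw : 0 ≤ w) : |rho1 w| ≤ 1 + w := by
  have h1 : ‖∫ t in (0:ℝ)..1, -(Dw t w / (Dtw t w * Real.sqrt (Dtw t w)))‖ ≤
      (10 + 2 * w) / 27 * |1 - 0| := by
    refine intervalIntegral.norm_integral_le_of_norm_le_const fun t ht => ?_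
    rw [Real.norm_eq_abs]
    exact bound_F1 hw (sq_le_one ht)
  rw [Real.norm_eq_abs] at h1
  have h4 : rho1 w = ∫ t in (0:ℝ)..1, -(Dw t w / (Dtw t w * Real.sqrt (Dtw t w))) := rfl
  rw [← h4] at h1
  norm_num at h1
  linarith

theorem cont_rho : ContinuousOn rho (Ici 0) := by
  intro w hw
  refine intervalIntegral.continuousWithinAt_of_dominated_interval (bound := fun _ => 2 / 3)
    ?_ ?_ _root_.intervalIntegrable_const ?_
  · filter_upwards [self_mem_nhdsWithin] with x hx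
    exact (cont_F hx).aestronglyMeasurable
  · filter_upwards [self_mem_nhdsWithin] with x hx
    refine Eventually.of_forall fun t ht => ?_
    have hs := sqrt_ge hx (sq_le_one ht)
    rw [Real.norm_eq_abs, abs_of_nonneg (by positivity)]
    exact div_le_div₀ (by norm_num) le_rfl (by norm_num) hs
  · refine Eventually.of_forall fun t _ => ?_
    exact (continuousAt_const.div (cont_D' t).sqrt.continuousAt
      (Real.sqrt_pos.2 (D_pos hw t)).ne').continuousWithinAt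

theorem rho_zero : rho 0 = Real.pi / (3 * Real.sqrt 3) := by
  have h3 : (0 : ℝ) < Real.sqrt 3 := Real.sqrt_pos.2 (by norm_num)
  have h33 : Real.sqrt 3 ^ 2 = 3 := Real.sq_sqrt (by norm_num)
  have h1 : ∀ t : ℝ, 2 / Real.sqrt (Dtw t 0) = 2 / (3 + t ^ 2) := by
    intro t
    have : Dtw t 0 = (3 + t ^ 2) ^ 2 := by
      unfold Dtw
      ring
    rw [this, Real.sqrt_sq (by positivity)]
  have h2 : ∀ t : ℝ, HasDerivAt (fun t : ℝ => 2 / Real.sqrt 3 * Real.arctan (t / Real.sqrt 3))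
      (2 / (3 + t ^ 2)) t := by
    intro t
    have h4 := (((hasDerivAt_id t).div_const (Real.sqrt 3)).arctan).const_mul (2 / Real.sqrt 3)
    refine h4.congr_deriv ?_
    have h5 : (0 : ℝ) < 3 + t ^ 2 := by positivity
    have h6 : 1 + (id t / Real.sqrt 3) ^ 2 = (3 + t ^ 2) / 3 := by
      rw [div_pow, h33]
      simp
      ring
    rw [h6]
    field_simp
    rw [h33]
  unfold rho
  simp_rw [h1]
  rw [intervalIntegral.integral_eq_sub_of_hasDerivAt (fun t _ => h2 t)]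
  · have h7 : Real.arctan (1 / Real.sqrt 3) = Real.pi / 6 := by
      rw [← Real.tan_pi_div_six]
      refine Real.arctan_tan ?_ ?_ <;> linarith [Real.pi_pos]
    rw [h7]
    simp
    field_simp
    norm_num
  · refine Continuous.intervalIntegrable ?_ _ _
    exact continuous_const.div (by fun_prop) fun t => by positivity

theorem rho_ : G_RHO :=
  ⟨fun _ hw => hasDerivAt_rho hw, fun _ hw => ode hw, fun _ hw => rho1_le hw, cont_rho, rho_zero⟩

end ECC.PkRHO
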